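import Pool.Agent.Q76.RT.Main
import Pool.Agent.Q76.RT.Line
import Pool.Agent.Y283.TO.Main

/-!
# MP_49c4d9_an: reductive Toeplitz operators with Hölder symbols of exponent greater than `1/2`

Let `φ` be a complex function on the circle which is Hölder continuous with an exponent `α > 1/2`, and
let `T` be the Toeplitz operator of `φ`: a bounded operator on a Hilbert space whose matrix in an
orthonormal basis `b 0, b 1, ...` has the entries `fourierCoeff φ (i - j)`.  Then `T` is reductive if
and only if it is normal, and if and only if the values of `φ` lie on a line of the plane.  In other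
words: if `φ` does not take its values on a line, then `T` has a closed invariant subspace which is not
reducing.

Outline.  Let `T` be reductive.  (1) An eigenvalue of `T` is an eigenvalue of `T*` with the same
eigenvector, and Coburn's argument excludes this off the range of `φ` (`Q76.RT.no_eig`).  (2) Hence the
winding numbers of `φ` about the points off its range vanish, and the starting library
(`Y283.TO.quant`) gives absolutely summable solutions `u`, `v` of `(z - T) u = e₀` and of the transposed
equation with `log⁺` of their norms bounded by a function which is integrable over discs.  (3) The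
inverse of `z - T` is `(∑ u_m S^m) (∑ v_m S*^m) / v_0` (`Q76.RT.inverse`), so `log⁺ ‖(z - T)⁻¹‖` is
integrable near the spectrum, which is a null set.  (4) The self-commutator is compact.  (5) The starting
theorem `ReductiveLogIntegrable` applies.
-/

set_option autoImplicit false

open scoped NNReal

namespace Pool.Agent.Results.MP_49c4d9_an.HolderToeplitz

/-- `T` is reductive: every closed invariant subspace is invariant under the adjoint. -/
def Reductive {H : Type} [NormedAddCommGroup H] [InnerProductSpace ℂ H] [CompleteSpace H]
    (T : H →L[ℂ] H) : Prop :=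
  ∀ V : Submodule ℂ H, IsClosed (V : Set H) → (∀ x ∈ V, T x ∈ V) →
    ∀ x ∈ V, ContinuousLinearMap.adjoint T x ∈ V

/-- The values of `φ` lie on a line of the plane. -/
def ValuesOnLine (φ : UnitAddCircle → ℂ) : Prop :=
  ∃ a μ : ℂ, μ ≠ 0 ∧ ∀ t, ∃ r : ℝ, φ t = a + r * μ

/-- **Theorem.** A Toeplitz operator with a Hölder continuous symbol of exponent greater than `1/2` is
reductive if and only if it is normal, if and only if the values of the symbol lie on a line. -/
theorem result (H : Type) [NormedAddCommGroup H] [InnerProductSpace ℂ H] [CompleteSpace H]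
    (b : HilbertBasis ℕ ℂ H) (φ : UnitAddCircle → ℂ) (C α : ℝ≥0) (hα : 1 / 2 < α)
    (hφ : HolderWith C α φ) (T : H →L[ℂ] H)
    -- `T` is the Toeplitz operator of `φ`
    (hT : ∀ i j : ℕ, inner ℂ (b i) (T (b j)) = fourierCoeff φ ((i : ℤ) - j)) :
    (Reductive T ↔ IsStarNormal T) ∧ (Reductive T ↔ ValuesOnLine φ) := by
  have hα0 : 0 < α := lt_trans (by norm_num) hα
  obtain ⟨L, q, hL, hq, hq2, hHD⟩ := Pool.Agent.Y283.TO.HD_of_holder
    ⟨φ, hφ.continuous hα0⟩ C α hα hφ
  have h1 : Reductive T → IsStarNormal T := fun h =>
    Pool.Agent.Q76.RT.normal_of_red (b := b) ⟨φ, hφ.continuous hα0⟩ L q hL hq hq2 hHD T hT h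
  have h2 : IsStarNormal T → ValuesOnLine φ := fun h =>
    Pool.Agent.Q76.RT.line_of_normal (b := b) ⟨φ, hφ.continuous hα0⟩ T hT h
  have h3 : ValuesOnLine φ → Reductive T := fun h =>
    Pool.Agent.Q76.RT.red_of_line (b := b) ⟨φ, hφ.continuous hα0⟩ T hT h
  exact ⟨⟨h1, fun h => h3 (h2 h)⟩, ⟨fun h => h2 (h1 h), h3⟩⟩

end Pool.Agent.Results.MP_49c4d9_an.HolderToeplitz
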