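import Pool.Agent.Q98.NS.Red
import Pool.Agent.Y891.NK.AREA

/-!
# Reductive perturbations of normal operators in Schatten classes `S_p`, `p < 2`

Let `N` be an arbitrary normal operator on a separable complex Hilbert space (no condition on its
spectrum, which may have interior, or on its spectral measure) and `K` an operator of a Schatten class
`S_p`, `p < 2`. For every `t` outside a set which is null for all atomless measures with bounded
logarithmic potential, in particular for almost every complex and for almost every real `t`, the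
operator `N + t K` is normal as soon as it is reductive.

For self-adjoint or unitary `N` this is contained in the theorem of Nordgren, Radjavi and Rosenthal;
for `p = 1` it is part (2) of the starting file `ReductiveCouplings`, whose proof uses integrated local
resolvents, which are not available for `p > 1`.

Proof. Let `t` be one of the good coupling constants of `NormalPlusSchatten` (MP_f981b0_an; the good
constants are defined by the regularised determinants of the matrices of Cauchy transforms) and let
`V` be a reducing subspace of `T = N + t K`. `V` need not reduce `N`, and `T|V` need not be the sum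
of a normal operator and an operator in `S_p` with good coupling. But the duality of the proof of
`NormalPlusSchatten` can be restricted to `V`: if there is no nonzero `x` in `V` with
`‖(T - a)^k x‖ ≤ C r^k`, the theorem of Hahn and Banach on `V` gives polynomials with values in `V`,
the composition of their coefficients with the projection onto `V` satisfies the equations for `T` with
the same errors, and the bounds for `T` show that `T - a` is bounded below on `V` (`NS/Red`). The same
holds for the adjoint. So if the spectrum of `T|V` has two points, then `T|V` or its adjoint has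
an eigenvector or both have vectors with small local spectra, at different points, which annihilate
each other across the commutant: `T|V` has a nontrivial hyperinvariant subspace. If the spectrum is
one point `c`, then `T|V - c` is quasinilpotent with compact self-commutator, hence compact, and the
theorem of Lomonosov applies. By the minimal dimension argument of the starting library
(`W706.HIR`), a reductive `T` with compact self-commutator all of whose restrictions to hyperinvariant
subspaces are scalar or have hyperinvariant subspaces is normal.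
-/

set_option autoImplicit false

open MeasureTheory Metric
open scoped InnerProductSpace ENNReal NNReal

namespace Pool.Agent.Results.MP_49c4d9_an.ReductiveSchatten

section Defs

variable {H : Type} [NormedAddCommGroup H] [InnerProductSpace ℂ H]

/-- Every closed invariant subspace of `T` is invariant under the adjoint. -/
def IsReductive [CompleteSpace H] (T : H →L[ℂ] H) : Prop :=
  ∀ V : Submodule ℂ H, IsClosed (V : Set H) → (∀ x ∈ V, T x ∈ V) →
    ∀ x ∈ V, ContinuousLinearMap.adjoint T x ∈ V

/-- `K` is in the Schatten class `S_p`: `K x = ∑ ⟪v i, x⟫ u i` with orthogonal sequences `(u i)` and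
`(v i)` and `∑ (‖u i‖ ‖v i‖)^p < ∞` (the nonzero numbers `‖u i‖ ‖v i‖` are the singular values). -/
def SchattenClass (p : ℝ) (K : H →L[ℂ] H) : Prop :=
  ∃ u v : ℕ → H, (∀ i j, i ≠ j → ⟪u i, u j⟫_ℂ = 0) ∧ (∀ i j, i ≠ j → ⟪v i, v j⟫_ℂ = 0) ∧
    Summable (fun i => (‖u i‖ * ‖v i‖) ^ p) ∧ ∀ x, HasSum (fun i => ⟪v i, x⟫_ℂ • u i) (K x)

end Defs

/-- The measure `m` has no atoms, and on every disc `|t| < R` it is finite and
`∫ log⁺ (1 / |t - s|) dm(t)` is bounded in `s ∈ ℂ`. -/
def BoundedPotential (m : Measure ℂ) : Prop :=
  (∀ s : ℂ, m {s} = 0) ∧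
  ∀ R : ℝ, m (ball (0:ℂ) R) ≠ ⊤ ∧ ∃ C : ℝ≥0, ∀ s : ℂ,
    ∫⁻ t in ball (0:ℂ) R, ENNReal.ofReal (Real.posLog ‖t - s‖⁻¹) ∂m ≤ C

/-- vectors with equal norms -/
theorem rescale {H : Type} [NormedAddCommGroup H] [InnerProductSpace ℂ H] (u v : H) :
    ∃ α β : ℂ, (∀ x, ⟪β • v, x⟫_ℂ • (α • u) = ⟪v, x⟫_ℂ • u) ∧ ‖α • u‖ ^ 2 = ‖u‖ * ‖v‖ ∧
      ‖β • v‖ ^ 2 = ‖u‖ * ‖v‖ := by
  by_cases h : ‖u‖ * ‖v‖ = 0
  · refine ⟨0, 0, fun x => ?_, ?_, ?_⟩
    · rcases mul_eq_zero.1 h with h0 | h0
      · rw [norm_eq_zero] at h0
        simp [h0]
      · rw [norm_eq_zero] at h0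
        simp [h0]
    · rw [h, zero_smul, norm_zero]
      norm_num
    · rw [h, zero_smul, norm_zero]
      norm_num
  · have hu : ‖u‖ ≠ 0 := left_ne_zero_of_mul h
    have hv : ‖v‖ ≠ 0 := right_ne_zero_of_mul h
    have hu0 : 0 < ‖u‖ := lt_of_le_of_ne (norm_nonneg _) hu.symm
    have hv0 : 0 < ‖v‖ := lt_of_le_of_ne (norm_nonneg _) hv.symm
    obtain ⟨s, hs⟩ : ∃ s : ℝ, s = Real.sqrt (‖u‖ * ‖v‖) := ⟨_, rfl⟩
    have hs0 : 0 < s := by
      rw [hs]
      positivity
    have hs2 : s ^ 2 = ‖u‖ * ‖v‖ := by
      rw [hs]
      exact Real.sq_sqrt (by positivity)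
    have hsc : (s : ℂ) ≠ 0 := by exact_mod_cast hs0.ne'
    have huc : (‖u‖ : ℂ) ≠ 0 := by exact_mod_cast hu
    refine ⟨((s / ‖u‖ : ℝ) : ℂ), ((‖u‖ / s : ℝ) : ℂ), fun x => ?_, ?_, ?_⟩
    · rw [inner_smul_left, Complex.conj_ofReal, smul_smul]
      congr 1
      push_cast
      field_simp
    · rw [norm_smul, Complex.norm_real, Real.norm_of_nonneg (by positivity),
        div_mul_cancel₀ _ hu, hs2]
    · rw [norm_smul, Complex.norm_real, Real.norm_of_nonneg (by positivity), mul_pow, div_pow, hs2]
      field_simp

/-- **Generic reductive perturbations of normal operators in `S_p`, `p < 2`, are normal.** Let `N` be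
normal and `K` in the Schatten class `S_p`, `0 < p < 2`, on a separable Hilbert space. For almost
every `t` with respect to every atomless measure with bounded logarithmic potential, in particular for
almost every complex and for almost every real `t`: if `N + t K` is reductive, then it is normal. -/
theorem result (H : Type) [NormedAddCommGroup H] [InnerProductSpace ℂ H] [CompleteSpace H]
    [TopologicalSpace.SeparableSpace H] (N K : H →L[ℂ] H) (hN : IsStarNormal N) (p : ℝ)
    (hp0 : 0 < p) (hp2 : p < 2) (hK : SchattenClass p K) :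
    (∀ (m : Measure ℂ) [SFinite m], BoundedPotential m →
      ∀ᵐ t ∂m, IsReductive (N + t • K) → IsStarNormal (N + t • K)) ∧
    (∀ᵐ t : ℂ, IsReductive (N + t • K) → IsStarNormal (N + t • K)) ∧
    (∀ᵐ t : ℝ, IsReductive (N + (t : ℂ) • K) → IsStarNormal (N + (t : ℂ) • K)) := by
  obtain ⟨u, v, hu, hv, hs, hK⟩ := hK
  choose α β h1 h2 h3 using fun i => rescale (u i) (v i)
  have hu' : Pairwise fun i j => ⟪α i • u i, α j • u j⟫_ℂ = 0 := fun i j hij => by
    show ⟪α i • u i, α j • u j⟫_ℂ = 0
    rw [inner_smul_left, inner_smul_right, hu i j hij, mul_zero, mul_zero]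
  have hv' : Pairwise fun i j => ⟪β i • v i, β j • v j⟫_ℂ = 0 := fun i j hij => by
    show ⟪β i • v i, β j • v j⟫_ℂ = 0
    rw [inner_smul_left, inner_smul_right, hv i j hij, mul_zero, mul_zero]
  have hK' : ∀ x, HasSum (fun i => ⟪β i • v i, x⟫_ℂ • (α i • u i)) (K x) := by
    intro x
    simp only [h1]
    exact hK x
  have main : ∀ (m : Measure ℂ) [SFinite m], Pool.Agent.Y283.NK.LogBd m →
      ∀ᵐ t ∂m, IsReductive (N + t • K) → IsStarNormal (N + t • K) := fun m _ hm =>
    Pool.Agent.Q98.NS.red_final H N K hN _ _ hu' hv' h2 h3 hp0 hp2 hs hK' m hm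
  refine ⟨?_, ?_, ?_⟩
  · intro m _ hm
    refine main m fun R => ?_
    obtain ⟨h0, hm⟩ := hm
    obtain ⟨h1, C, hC⟩ := hm R
    refine ⟨C + (m (ball (0:ℂ) R)).toNNReal, ?_, fun s => ?_⟩
    · rw [ENNReal.coe_add, ENNReal.coe_toNNReal h1]
      exact le_add_self
    · calc ∫⁻ t in ball (0:ℂ) R, Pool.Agent.Y283.NK.lm ‖t - s‖ ∂m
          = ∫⁻ t in ball (0:ℂ) R, ENNReal.ofReal (Real.posLog ‖t - s‖⁻¹) ∂m := by
            refine lintegral_congr_ae (ae_restrict_of_ae ?_)
            have h2 : ∀ᵐ t ∂m, t ≠ s := by
              rw [ae_iff]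
              simpa using h0 s
            filter_upwards [h2] with t ht
            unfold Pool.Agent.Y283.NK.lm
            rw [if_neg (by simpa [sub_eq_zero] using ht)]
        _ ≤ C := hC s
        _ ≤ _ := by rw [ENNReal.coe_add]; exact le_self_add
  · exact main volume Pool.Agent.Y891.NK.main_vol.1
  · have h := main (Measure.map (fun t : ℝ => (t : ℂ)) volume) Pool.Agent.Y891.NK.main_vol.2
    exact ae_of_ae_map Complex.continuous_ofReal.measurable.aemeasurable h

end Pool.Agent.Results.MP_49c4d9_an.ReductiveSchatten
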