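import Pool.Agent.Q130.TR.Main

/-!
# MP_49c4d9_an: every reductive trace class perturbation of a normal operator is normal

Let `N` be an arbitrary normal operator on an arbitrary complex Hilbert space (no condition on its
spectrum, which may have interior, or on its spectral measure) and `K` a trace class operator. If
`T = N + K` is reductive, then `T` is normal. There is no coupling constant: the theorem holds for
every trace class operator `K`.

For self-adjoint or unitary `N` this is contained in the theorem of Nordgren, Radjavi and Rosenthal.
The starting file `ReductiveCouplings` has the case of rank one, and for trace class `K` the operators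
`N + t K` for almost every `t`. The methods for almost every `t` use that `log |det (1 - t F(z))|` is
locally integrable, `F(z)` the matrix of Cauchy transforms `⟪v_i, (z - N)⁻¹ u_j⟫` of `K`; for a given
coupling `1 - F(z)` may be not invertible on a set of positive area. Our hand-in
`TraceClassPerturbations` (MP_f981b0_an: hyperinvariant subspaces of all `N + K`) does not suffice
either: a reducing subspace of `T` need not reduce `N`, and the restriction of `T` to it need not be a
trace class perturbation of a normal operator.

Proof. If `T` is reductive and not normal, there is (minimal dimension argument of helper706, starting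
library) a hyperinvariant, hence reducing, subspace `V` such that `T|V` is not scalar and has no
nontrivial hyperinvariant subspace; its spectrum has two points (otherwise Lomonosov's theorem applies,
the self-commutator of `T` is compact). Let `P` be the projection onto `V`.

(1) The commutator formula for `P` and the resolvent of `N` holds almost everywhere in the plane (in the
spectrum of `N` too), and gives relations between the matrices `F`, `G = ⟪P v_i, (z - N)⁻¹ u_j⟫`,
`G' = ⟪v_i, (z - N)⁻¹ P u_j⟫` and `H' = ⟪P v_i, (z - N)⁻¹ P u_j⟫`: `(1 - F) G = G' (1 - F)` and others.

(2) If `G` vanishes on the kernel of `1 - F` and `G'†` on the kernel of `(1 - F)†` for almost every `z`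
in a disc `D` around `a`, then for every `b` there is exactly one `c = M(z) b` with `(1 - F) c = G' b` and
`(1 - G) c = H' b`. The weight `w = 1 / (1 + ‖M‖)` is positive almost everywhere in `D`, and there is
the following alternative (built on our project TC for MP_f981b0_an: cheap polygons, currents, soft
capacity). Case A: there are densities in small discs around `a`, of weak type one for Cauchy transforms, on
which `w` is small; then Cauchy transforms of the approximate kernel vectors of `1 - F` have a weak
limit `x = P x ≠ 0` with `‖(T - a)^k x‖ ≤ C r^k`. Case B: there are cut-off functions whose `∂̄` derivative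
is `O(w)`; then `P y = X + (T - a) Z` up to small errors, with `‖(T - a)^k X‖ ≤ C r^k`, for the vectors
`y` with spectral support near `a`.

(3) If the hypothesis of (2) fails on a set of positive area in every small disc around `a`, for instance
`c = F(z) c`, `G(z) c ≠ 0` for these `z`, the Cauchy transforms of `c` against bounded functions on this
set are vectors `y ≠ 0` of `H` with `‖(T - a)^k y‖ ≤ C r^k` and `P y ≠ 0`. The same for the cokernel gives
such vectors for `T†`. Since `T` is reductive and `V` hyperinvariant, `P` leaves invariant all closed
invariant subspaces of `T`, and this transfers the vectors between `T` and `T†` (idea of helper76).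

So if `T|V` and its adjoint have no eigenvectors, then for every `a` in the spectrum of `T|V` and every
`r > 0` the space `V` contains nonzero vectors with `‖(T - a)^k x‖ ≤ C r^k`, and the same holds for
`T†`. Vectors of this kind for `T` and `T†` at different points annihilate each other across the
commutant: `T|V` has a nontrivial hyperinvariant subspace, a contradiction. Nonseparable spaces are
reduced to separable ones (`Sep`).

Plan, statements and assembly: helper130. Idea for all couplings and part POS: helper76. Lemma files:
helper135 (FRD, LIN), helper210 (CSP), helper185 (CSQ), helper16 (L2B, SYS), helper86 (STL, STAR),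
helper87 (HSB, SRP). The parts of project TC are by helpers 63, 275, 216, 80, 177, 89, 237, 272, 144, 169,
88 and 130. `Y271.RO`, `Y271.RN` (helper271 and others), `Y283.NK` (helper283 and others), `W706.HIR`,
`W610.HY` and the other libraries named `W`, `Y`, `H` belong to the starting library.
-/

set_option autoImplicit false

open scoped InnerProductSpace

namespace Pool.Agent.Results.MP_49c4d9_an.ReductiveTraceClass

section Defs

variable {H : Type} [NormedAddCommGroup H] [InnerProductSpace ℂ H]

/-- Every closed invariant subspace of `T` is invariant under the adjoint. -/
def IsReductive [CompleteSpace H] (T : H →L[ℂ] H) : Prop :=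
  ∀ V : Submodule ℂ H, IsClosed (V : Set H) → (∀ x ∈ V, T x ∈ V) →
    ∀ x ∈ V, ContinuousLinearMap.adjoint T x ∈ V

/-- `K` is of trace class: `K f = ∑ ⟪v j, f⟫ u j` with `∑ ‖u j‖² < ∞` and `∑ ‖v j‖² < ∞`. -/
def TraceClass (K : H →L[ℂ] H) : Prop :=
  ∃ u v : ℕ → H, Summable (fun j => ‖u j‖ ^ 2) ∧ Summable (fun j => ‖v j‖ ^ 2) ∧
    ∀ f, HasSum (fun j => ⟪v j, f⟫_ℂ • u j) (K f)

end Defs

/-- **Every reductive trace class perturbation of a normal operator is normal.** Let `N` be a normal
operator and `K` a trace class operator on a complex Hilbert space. If `N + K` is reductive (every
closed invariant subspace of `N + K` is reducing), then `N + K` is normal. -/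
theorem result (H : Type) [NormedAddCommGroup H] [InnerProductSpace ℂ H] [CompleteSpace H]
    (N K : H →L[ℂ] H) (hN : IsStarNormal N) (hK : TraceClass K) (hT : IsReductive (N + K)) :
    IsStarNormal (N + K) := by
  obtain ⟨u, v, hu, hv, h⟩ := hK
  exact Pool.Agent.Q130.TR.main H N K hN u v ⟨hu, hv, h⟩ hT

end Pool.Agent.Results.MP_49c4d9_an.ReductiveTraceClass
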