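import Mathlib
import Pool.Agent.H743R2.NW6
import Pool.Agent.Q87.RW.E

/-!
# Reductive weighted composition operators on the Hardy space are normal

Let `T f = ψ · (f ∘ φ)` be a bounded weighted composition operator on the Hardy space `H²` of the
unit disc, `φ` any analytic self-map of the disc.  If every closed invariant subspace of `T` is
reducing, then `T` is normal, and `T = 0` or `φ` is constant or linear fractional.

More generally let `ω` be a point of the closed disc and consider all bounded weighted composition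
operators whose symbol `φ` fixes `ω` (`φ ω = ω` if `‖ω‖ < 1`; Julia's inequality, that is `ω` is the
Denjoy-Wolff point of `φ` or `φ` is the identity or ..., if `‖ω‖ = 1`).  By the theorem of Wolff
every analytic self-map of the disc fixes such an `ω`.  Every reductive operator in the reflexive
hull of all these operators is normal, and all of them commute.

Proof.  For `‖ω‖ < 1` the functions vanishing to order `k` at `ω` form a flag of common invariant
subspaces.  For `‖ω‖ = 1` put `u_t(z) = exp (-t (1 + conj ω z) / (1 - conj ω z))`.  By Julia's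
inequality `u_t ∘ φ` is divisible by `u_t`, hence the subspaces `u_t H²` are a continuous nest of
common invariant subspaces.  If they reduce `T` then `T` commutes with the projections `P_t` onto
them.  The constant function is cyclic for the `P_t` (`1 - conj ω S = 2 ∫ e^{-t} u_t(S) dt`), and an
operator which commutes with a commuting family of projections with a cyclic vector is normal.
-/

set_option autoImplicit false

open Metric Set
open scoped ComplexConjugate

namespace Pool.Agent.Results.MP_49c4d9_an.WeightedComposition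

open ContinuousLinearMap (adjoint)

/-- `M` is a closed invariant subspace of `T`. -/
def Inv {H : Type} [NormedAddCommGroup H] [InnerProductSpace ℂ H] (T : H →L[ℂ] H)
    (M : Submodule ℂ H) : Prop :=
  IsClosed (M : Set H) ∧ ∀ x ∈ M, T x ∈ M

/-- Every closed invariant subspace of `T` is invariant under the adjoint. -/
def Reductive {H : Type} [NormedAddCommGroup H] [InnerProductSpace ℂ H] [CompleteSpace H]
    (T : H →L[ℂ] H) : Prop :=
  ∀ M : Submodule ℂ H, Inv T M → Inv (adjoint T) M

/-- The Hardy space `H²` of the unit disc: square-summable sequences of Taylor coefficients. -/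
abbrev H2 : Type := ↥(lp (fun _ : ℕ => ℂ) 2)

/-- The open unit disc. -/
abbrev U : Set ℂ := ball (0 : ℂ) 1

/-- The value at `z` of the function whose Taylor coefficients are `f`. -/
noncomputable def val (f : H2) (z : ℂ) : ℂ := ∑' n : ℕ, f n * z ^ n

/-- Bounded operators on `H²`. -/
abbrev Op : Type := H2 →L[ℂ] H2

/-- `T` is normal. -/
def Normal (T : Op) : Prop := IsStarNormal T

/-- `φ` is an analytic self-map of the disc. -/
def SelfMap (φ : ℂ → ℂ) : Prop := DifferentiableOn ℂ φ U ∧ MapsTo φ U U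


/-- `T` is the weighted composition operator `f ↦ ψ · (f ∘ φ)`. -/
def IsWeightedComposition (ψ φ : ℂ → ℂ) (T : Op) : Prop :=
  ∀ f : H2, ∀ z ∈ U, val (T f) z = ψ z * val f (φ z)

/-- `φ` is an analytic self-map of the disc that fixes the point `ω` of the closed disc: for
`‖ω‖ < 1` this means `φ ω = ω`; for `‖ω‖ = 1` it means Julia's inequality with constant one (every
horodisc at `ω` is mapped into itself). -/
def Fixes (ω : ℂ) (φ : ℂ → ℂ) : Prop :=
  SelfMap φ ∧ (‖ω‖ < 1 → φ ω = ω) ∧
    (‖ω‖ = 1 → ∀ z ∈ U,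
      (1 - ‖z‖ ^ 2) * ‖1 - conj ω * φ z‖ ^ 2 ≤ (1 - ‖φ z‖ ^ 2) * ‖1 - conj ω * z‖ ^ 2)

/-- `A` belongs to the reflexive hull of the bounded weighted composition operators whose symbol
fixes `ω`: it leaves invariant all closed subspaces which they leave invariant. -/
def Hull (ω : ℂ) (A : Op) : Prop :=
  ∀ M : Submodule ℂ H2, IsClosed (M : Set H2) →
    (∀ (ψ φ : ℂ → ℂ) (T : Op), Fixes ω φ → IsWeightedComposition ψ φ T → Inv T M) → Inv A M

/-- `φ` is linear fractional on the disc: `φ(z) = (a z + b) / (c z + d)` with `a d - b c ≠ 0`. -/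
def IsLinearFractional (φ : ℂ → ℂ) : Prop :=
  ∃ a b c d : ℂ, a * d - b * c ≠ 0 ∧ ∀ z ∈ U, c * z + d ≠ 0 ∧ φ z = (a * z + b) / (c * z + d)

open Pool.Agent.Q87.RW in
theorem dichotomy {ω : ℂ} {A : Op} (hA : Hull ω A) (hR : Reductive A) :
    (‖ω‖ < 1 → Red ω A) ∧ ∀ hω : ‖ω‖ = 1, RedB ω hω A := by
  constructor
  · intro hω k
    have h1 : Inv A (Zk ω k) := hA (Zk ω k) (Zk_closed hω k)
      (fun ψ φ T hφ hT => ⟨Zk_closed hω k,
        fun x hx => Zk_inv hω hφ.1.1 hφ.1.2 (hφ.2.1 hω) hT k hx⟩)
    exact ⟨h1.2, (hR (Zk ω k) h1).2⟩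
  · intro hω t ht
    have h1 : Inv A (Rt ω hω t ht) := hA (Rt ω hω t ht) (Rt_closed hω ht)
      (fun ψ φ T hφ hT => ⟨Rt_closed hω ht,
        fun x hx => Rt_inv hω ht hφ.1.1 hφ.1.2 (hφ.2.2 hω) hT hx⟩)
    exact ⟨h1.2, (hR (Rt ω hω t ht) h1).2⟩

theorem exists_fixes {φ : ℂ → ℂ} (hφ : DifferentiableOn ℂ φ U) (hm : MapsTo φ U U) :
    ∃ ω : ℂ, ‖ω‖ ≤ 1 ∧ Fixes ω φ := by
  by_cases h : ∀ z ∈ U, φ z ≠ z
  · obtain ⟨ω, hω, hJ⟩ := Pool.Agent.Q87.RW.exists_wolff hφ hm h
    exact ⟨ω, hω.le, ⟨hφ, hm⟩, fun h1 => absurd hω h1.ne, fun _ => hJ⟩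
  · push Not at h
    obtain ⟨ω, hω, hfix⟩ := h
    have h1 : ‖ω‖ < 1 := mem_ball_zero_iff.1 hω
    exact ⟨ω, h1.le, ⟨hφ, hm⟩, fun _ => hfix, fun h2 => absurd h2 h1.ne⟩

theorem normal_of_hull {ω : ℂ} (hω : ‖ω‖ ≤ 1) {A : Op} (hA : Hull ω A)
    (hR : Reductive A) : IsStarNormal A := by
  rcases hω.lt_or_eq with h | h
  · exact Pool.Agent.Q87.RW.normal_of_red h ((dichotomy hA hR).1 h)
  · exact ((dichotomy hA hR).2 h).normal

theorem comm_of_hull {ω : ℂ} (hω : ‖ω‖ ≤ 1) {A B : Op} (hA : Hull ω A)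
    (hRA : Reductive A) (hB : Hull ω B) (hRB : Reductive B) : A * B = B * A := by
  rcases hω.lt_or_eq with h | h
  · exact Pool.Agent.Q87.RW.comm_of_red h ((dichotomy hA hRA).1 h) ((dichotomy hB hRB).1 h)
  · exact ((dichotomy hA hRA).2 h).comm_mul ((dichotomy hB hRB).2 h)

/-- **Theorem.**  (1) Every analytic self-map of the disc fixes a point of the closed disc.
(2) For every `ω` in the closed disc all reductive operators in the reflexive hull of the bounded
weighted composition operators whose symbol fixes `ω` are normal, and they commute with each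
other.  (3) In particular a weighted composition operator with any analytic self-map of the disc as
its symbol is normal if it is reductive; it is then zero, or its symbol is constant or linear
fractional. -/
theorem result :
    (∀ φ : ℂ → ℂ, SelfMap φ → ∃ ω : ℂ, ‖ω‖ ≤ 1 ∧ Fixes ω φ) ∧
    (∀ ω : ℂ, ‖ω‖ ≤ 1 → ∀ A B : Op, Hull ω A → Reductive A → Hull ω B → Reductive B →
      Normal A ∧ ∀ f, A (B f) = B (A f)) ∧
    (∀ (ψ φ : ℂ → ℂ) (T : Op), SelfMap φ → IsWeightedComposition ψ φ T → Reductive T →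
      Normal T ∧ (T = 0 ∨ (∃ w, ∀ z ∈ U, φ z = w) ∨ IsLinearFractional φ)) := by
  refine ⟨fun φ hφ => exists_fixes hφ.1 hφ.2, fun ω hω A B hA hRA hB hRB =>
    ⟨normal_of_hull hω hA hRA, fun f =>
      congrArg (fun T : H2 →L[ℂ] H2 => T f) (comm_of_hull hω hA hRA hB hRB)⟩,
    fun ψ φ T hS hT hR => ?_⟩
  have hφ := hS.1
  have hm := hS.2
  obtain ⟨ω, hω, hfix⟩ := exists_fixes hφ hm
  have hn : IsStarNormal T := normal_of_hull hω (fun M _ hM => hM ψ φ T hfix hT) hR
  refine ⟨hn, ?_⟩
  by_cases hc : ∃ w, ∀ z ∈ U, φ z = w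
  · exact Or.inr (Or.inl hc)
  -- the weight is analytic
  set ψ' : ℂ → ℂ := fun z => val (T (Pool.Agent.H743R2.NW.e 0)) z with hψ'
  have hψe : ∀ z ∈ U, ψ' z = ψ z := by
    intro z hz
    have h1 : val (Pool.Agent.H743R2.NW.e 0) (φ z) = 1 := Pool.Agent.H743R2.NW.ev_e0 (φ z)
    show val (T (Pool.Agent.H743R2.NW.e 0)) z = ψ z
    rw [hT _ z hz, h1, mul_one]
  have hψd : DifferentiableOn ℂ ψ' U := Pool.Agent.Helper203.Hardy.ev_diff _
  have hT' : ∀ f : H2, ∀ z ∈ U, val (T f) z = ψ' z * val f (φ z) := by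
    intro f z hz
    rw [hψe z hz]; exact hT f z hz
  by_cases h0 : ∀ z ∈ U, ψ' z = 0
  · left
    ext1 f
    apply Pool.Agent.Helper203.Hardy.ev_injective
    intro z hz
    have h1 := hT' f z hz
    rw [h0 z hz, zero_mul] at h1
    have h2 : Pool.Agent.Helper203.Hardy.ev (T f) z = 0 := h1
    rw [h2]
    simp [Pool.Agent.Helper203.Hardy.ev]
  · exact Or.inr (Or.inr (Pool.Agent.H743R2.NW.normal_lf hφ hm hψd h0 hc T hT' hn))

end Pool.Agent.Results.MP_49c4d9_an.WeightedComposition
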